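import Pool.Agent.SGE.Stmts

/-!
# Squad SGE, module NCX: no conflicts

Text: `/team-store/PAPER_SGE.md`.
-/

noncomputable section

namespace Pool.Agent.SGE.H32

/-- The invariant of a step with vertex `v`, whose list has its columns between `l` and `r`. -/
def K {V : Type} (x y : V → ℝ) (C : List V) (v : V) (l r : ℝ) : Prop :=
  ∃ m ∈ C, y v ≤ y m ∧ ∀ u ∈ C, y v ≤ y u ∨ (x u ≤ l ∧ x u < x m) ∨ (r ≤ x u ∧ x m < x u)

/-- The step of the invariant `K`. -/
theorem K_step {V : Type} {x y : V → ℝ} {P Q mid : List V} {p q w v : V} {l r : ℝ}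
    (hP : ∀ u ∈ P, x u < x p) (hm : ∀ u ∈ mid, x p < x u ∧ x u < x q)
    (hQ : ∀ u ∈ Q, x q < x u) (hpw : x p < x w) (hwq : x w < x q)
    (hyp : y p < y w) (hyq : y q < y w) (hym : ∀ u ∈ mid, y u < y w)
    (h : K x y (P ++ p :: (mid ++ q :: Q)) v l r) : K x y (P ++ p :: w :: q :: Q) v l r := by
  obtain ⟨m, hmC, hvm, hu⟩ := h
  have hup : y v ≤ y p ∨ (x p ≤ l ∧ x p < x m) ∨ (r ≤ x p ∧ x m < x p) := hu p (by simp)
  have huq : y v ≤ y q ∨ (x q ≤ l ∧ x q < x m) ∨ (r ≤ x q ∧ x m < x q) := hu q (by simp)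
  have huP : ∀ u ∈ P, y v ≤ y u ∨ (x u ≤ l ∧ x u < x m) ∨ (r ≤ x u ∧ x m < x u) := fun u h =>
    hu u (by simp [h])
  have huQ : ∀ u ∈ Q, y v ≤ y u ∨ (x u ≤ l ∧ x u < x m) ∨ (r ≤ x u ∧ x m < x u) := fun u h =>
    hu u (by simp [h])
  have key : ∀ m' : V, y v ≤ y m' → m' ∈ P ++ p :: w :: q :: Q →
      (y v ≤ y w ∨ (x w ≤ l ∧ x w < x m') ∨ (r ≤ x w ∧ x m' < x w)) →
      (∀ u, (u ∈ P ∨ u = p ∨ u = q ∨ u ∈ Q) →
        y v ≤ y u ∨ (x u ≤ l ∧ x u < x m') ∨ (r ≤ x u ∧ x m' < x u)) →
      K x y (P ++ p :: w :: q :: Q) v l r := by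
    intro m' h1 h2 h3 h4
    refine ⟨m', h2, h1, ?_⟩
    intro u hu'
    simp only [List.mem_append, List.mem_cons] at hu'
    rcases hu' with h | h | h | h | h
    · exact h4 u (Or.inl h)
    · exact h4 u (Or.inr (Or.inl h))
    · rw [h]; exact h3
    · exact h4 u (Or.inr (Or.inr (Or.inl h)))
    · exact h4 u (Or.inr (Or.inr (Or.inr h)))
  have hold : ∀ u, (u ∈ P ∨ u = p ∨ u = q ∨ u ∈ Q) →
      y v ≤ y u ∨ (x u ≤ l ∧ x u < x m) ∨ (r ≤ x u ∧ x m < x u) := by
    intro u hu'
    rcases hu' with h | h | h | h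
    · exact huP u h
    · rw [h]; exact hup
    · rw [h]; exact huq
    · exact huQ u h
  simp only [List.mem_append, List.mem_cons] at hmC
  rcases hmC with h | h | h | h | h
  · have h1 := hP m h
    refine key m hvm (by simp [h]) ?_ hold
    rcases hup with h2 | h2 | h2
    · left; linarith
    · linarith [h2.2]
    · right; right; constructor <;> linarith [h2.1, h2.2]
  · refine key m hvm (by simp [h]) ?_ hold
    left; rw [h] at hvm; linarith
  · have h1 := hm m h
    have h2 := hym m h
    refine key w (by linarith) (by simp) (Or.inl (by linarith)) ?_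
    intro u hu'
    rcases hu' with h3 | h3 | h3 | h3
    · have h4 := hP u h3
      rcases huP u h3 with h5 | h5 | h5
      · exact Or.inl h5
      · exact Or.inr (Or.inl ⟨h5.1, by linarith⟩)
      · linarith [h5.2, h1.1]
    · rw [h3]
      rcases hup with h5 | h5 | h5
      · exact Or.inl h5
      · exact Or.inr (Or.inl ⟨h5.1, by linarith⟩)
      · linarith [h5.2, h1.1]
    · rw [h3]
      rcases huq with h5 | h5 | h5
      · exact Or.inl h5
      · linarith [h5.2, h1.2]
      · exact Or.inr (Or.inr ⟨h5.1, by linarith⟩)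
    · have h4 := hQ u h3
      rcases huQ u h3 with h5 | h5 | h5
      · exact Or.inl h5
      · linarith [h5.2, h1.2]
      · exact Or.inr (Or.inr ⟨h5.1, by linarith⟩)
  · refine key m hvm (by simp [h]) ?_ hold
    left; rw [h] at hvm; linarith
  · have h1 := hQ m h
    refine key m hvm (by simp [h]) ?_ hold
    rcases huq with h2 | h2 | h2
    · left; linarith
    · right; left; constructor <;> linarith [h2.1, h2.2]
    · linarith [h2.2]

/-- The invariant of the sequence. -/
structure Inv {V : Type} (x y : V → ℝ) (C : List V) (S : List (V × List V)) : Prop where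
  so : C.Pairwise (fun u w => x u < x w)
  st : ∀ s ∈ S, ∃ l r, (∀ u ∈ s.2, l ≤ x u ∧ x u ≤ r) ∧ l < x s.1 ∧ x s.1 < r ∧
    K x y C s.1 l r
  nc : ∀ s₁ ∈ S, ∀ s₂ ∈ S, ∀ a₁ ∈ s₁.2, ∀ a₂ ∈ s₂.2, y s₁.1 < y s₂.1 → y a₂ < y s₁.1 →
    ¬ (x a₁ < x a₂ ∧ x a₂ < x s₁.1) ∧ ¬ (x s₁.1 < x a₂ ∧ x a₂ < x a₁)

theorem inv {V : Type} {a b : V} {C : List V} {S : List (V × List V)} (h : Can a b C S)
    {x y : V → ℝ} (ho : Ord a b S x y) : Inv x y C S := by
  induction h with
  | base h =>
    refine ⟨?_, ?_, ?_⟩
    · simp [ho.ab]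
    · intro s hs; simp at hs
    · intro s hs; simp at hs
  | @step P Q mid p q w S h ha hb hv ih =>
    have ho' : Ord a b S x y := ⟨ho.ab, fun v ℓ u h1 h2 => ho.xl v ℓ u (List.mem_cons_of_mem _ h1) h2,
      fun v ℓ u h1 h2 => ho.xr v ℓ u (List.mem_cons_of_mem _ h1) h2,
      fun v ℓ u h1 h2 => ho.up v ℓ u (List.mem_cons_of_mem _ h1) h2⟩
    obtain ⟨so, st, nc⟩ := ih ho'
    have hpw : x p < x w := ho.xl w _ p (List.mem_cons_self) (by simp)
    have hwq : x w < x q := by
      refine ho.xr w _ q (List.mem_cons_self) ?_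
      simp [List.getLast?_cons]
    have hup : ∀ u ∈ p :: (mid ++ [q]), y u < y w := fun u hu => ho.up w _ u (List.mem_cons_self) hu
    have hyp : y p < y w := hup p (by simp)
    have hyq : y q < y w := hup q (by simp)
    have hym : ∀ u ∈ mid, y u < y w := fun u hu => hup u (by simp [hu])
    rw [List.pairwise_append] at so
    obtain ⟨soP, so2, soPR⟩ := so
    rw [List.pairwise_cons] at so2
    obtain ⟨sop, so3⟩ := so2
    rw [List.pairwise_append] at so3
    obtain ⟨som, so4, som2⟩ := so3
    rw [List.pairwise_cons] at so4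
    obtain ⟨soq, soQ⟩ := so4
    have hP : ∀ u ∈ P, x u < x p := fun u hu => soPR u hu p (by simp)
    have hm : ∀ u ∈ mid, x p < x u ∧ x u < x q := fun u hu =>
      ⟨sop u (by simp [hu]), som2 u hu q (by simp)⟩
    have hQ : ∀ u ∈ Q, x q < x u := fun u hu => soq u hu
    have hbet : ∀ u ∈ p :: (mid ++ [q]), x p ≤ x u ∧ x u ≤ x q := by
      intro u hu
      simp only [List.mem_cons, List.mem_append, List.not_mem_nil, or_false] at hu
      rcases hu with h1 | h1 | h1
      · rw [h1]; exact ⟨le_refl _, by linarith⟩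
      · exact ⟨(hm u h1).1.le, (hm u h1).2.le⟩
      · rw [h1]; exact ⟨by linarith, le_refl _⟩
    refine ⟨?_, ?_, ?_⟩
    · rw [List.pairwise_append]
      refine ⟨soP, ?_, ?_⟩
      · rw [List.pairwise_cons, List.pairwise_cons, List.pairwise_cons]
        refine ⟨?_, ?_, soq, soQ⟩
        · intro u hu
          simp only [List.mem_cons] at hu
          rcases hu with h1 | h1 | h1
          · rw [h1]; exact hpw
          · rw [h1]; linarith
          · linarith [hQ u h1]
        · intro u hu
          simp only [List.mem_cons] at hu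
          rcases hu with h1 | h1
          · rw [h1]; exact hwq
          · linarith [hQ u h1]
      · intro u hu t ht
        have h0 := hP u hu
        simp only [List.mem_cons] at ht
        rcases ht with h1 | h1 | h1 | h1
        · rw [h1]; exact h0
        · rw [h1]; linarith
        · rw [h1]; linarith
        · linarith [hQ t h1]
    · intro s hs
      rw [List.mem_cons] at hs
      rcases hs with h1 | h1
      · rw [h1]
        refine ⟨x p, x q, hbet, hpw, hwq, w, by simp, le_refl _, ?_⟩
        intro u hu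
        simp only [List.mem_append, List.mem_cons] at hu
        rcases hu with h2 | h2 | h2 | h2 | h2
        · have h3 := hP u h2
          right; left; exact ⟨h3.le, by linarith⟩
        · rw [h2]; right; left; exact ⟨le_refl _, hpw⟩
        · rw [h2]; left; exact le_refl _
        · rw [h2]; right; right; exact ⟨le_refl _, hwq⟩
        · have h3 := hQ u h2
          right; right; exact ⟨h3.le, by linarith⟩
      · obtain ⟨l, r, h2, h3, h4, h5⟩ := st s h1
        exact ⟨l, r, h2, h3, h4, K_step hP hm hQ hpw hwq hyp hyq hym h5⟩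
    · intro s₁ hs₁ s₂ hs₂ a₁ ha₁ a₂ ha₂ h12 h21
      rw [List.mem_cons] at hs₁ hs₂
      rcases hs₁ with e₁ | e₁
      · rcases hs₂ with e₂ | e₂
        · rw [e₁, e₂] at h12
          exact absurd h12 (lt_irrefl _)
        · -- the new step is the first one
          rw [e₁] at h12 h21 ha₁ ⊢
          simp only at h12 h21 ha₁ ⊢
          obtain ⟨l, r, h2, h3, h4, m, hmC, hvm, hu⟩ := st s₂ e₂
          have hA := h2 a₂ ha₂
          have hB := hbet a₁ ha₁
          simp only [List.mem_append, List.mem_cons] at hmC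
          rcases hmC with h | h | h | h | h
          · have h5 := hP m h
            rcases hu p (by simp) with h6 | h6 | h6
            · linarith
            · linarith [h6.2]
            · constructor
              · rintro ⟨h7, h8⟩; linarith [h6.1, hA.2, hB.1]
              · rintro ⟨h7, h8⟩; linarith [h6.1, hA.2, hB.1]
          · rw [h] at hvm; linarith
          · linarith [hym m h]
          · rw [h] at hvm; linarith
          · have h5 := hQ m h
            rcases hu q (by simp) with h6 | h6 | h6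
            · linarith
            · constructor
              · rintro ⟨h7, h8⟩; linarith [h6.1, hA.1, hB.2]
              · rintro ⟨h7, h8⟩; linarith [h6.1, hA.1, hB.2]
            · linarith [h6.2]
      · rcases hs₂ with e₂ | e₂
        · -- the new step is the second one
          rw [e₂] at h12 ha₂
          simp only at h12 ha₂
          obtain ⟨l, r, h2, h3, h4, m, hmC, hvm, hu⟩ := st s₁ e₁
          have hA := h2 a₁ ha₁
          have hmem : a₂ ∈ P ++ p :: (mid ++ q :: Q) := by
            simp only [List.mem_cons, List.mem_append, List.not_mem_nil, or_false] at ha₂ ⊢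
            rcases ha₂ with h | h | h
            · exact Or.inr (Or.inl h)
            · exact Or.inr (Or.inr (Or.inl h))
            · exact Or.inr (Or.inr (Or.inr (Or.inl h)))
          rcases hu a₂ hmem with h6 | h6 | h6
          · linarith
          · constructor
            · rintro ⟨h7, h8⟩; linarith [h6.1, hA.1]
            · rintro ⟨h7, h8⟩; linarith [h6.1, hA.1]
          · constructor
            · rintro ⟨h7, h8⟩; linarith [h6.1, hA.2]
            · rintro ⟨h7, h8⟩; linarith [h6.1, hA.2]
        · exact nc s₁ e₁ s₂ e₂ a₁ ha₁ a₂ ha₂ h12 h21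

/-- NCX: no conflicts (CB is not needed). -/
theorem ncx0 : NcxStmt := by
  intro V a b C S h x y ho b₁ ℓ₁ a₁ b₂ ℓ₂ a₂ h1 h2 h3 h4 h5 h6
  exact (inv h ho).nc (b₁, ℓ₁) h1 (b₂, ℓ₂) h3 a₁ h2 a₂ h4 h5 h6

/-- NCX with the interface of the module table. -/
theorem ncx (_ : CbStmt) : NcxStmt := ncx0

end Pool.Agent.SGE.H32
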